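import Pool.Agent.H.MP_68674a_lc.Defs
import Pool.Agent.Lib.lead.CXSat

namespace Pool.Agent.H.MP_68674a_lc
open Pool.Agent.Lib.CX Function

variable {V W : Type} [DecidableEq V] [DecidableEq W] {p : V → List V} {m : V → Option V}

theorem no_blk (r : V → ℕ) (h : ∀ a b, Pref p m a b → r b < r a) {k : ℕ} (hk : 2 ≤ k) : ¬ Blk p m k := by
  rintro ⟨a, -, ha⟩
  have : ∀ i < k, r (a i) + i ≤ r (a 0) := fun i => by
    induction i with
    | zero => simp
    | succ i ih =>
      intro hi
      have := h _ _ (ha i (by omega))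
      rw [Nat.mod_eq_of_lt hi] at this
      have := ih (by omega); omega
  have h1 := h _ _ (ha (k - 1) (by omega))
  rw [show k - 1 + 1 = k by omega, Nat.mod_self] at h1
  have := this (k - 1) (by omega); omega

theorem blk2 {a b : V} (h : a ≠ b) (h1 : Pref p m a b) (h2 : Pref p m b a) : Blk p m 2 :=
  ⟨fun i => if i = 0 then a else b, fun i hi j hj e => by
    simp only [Set.mem_Iio] at hi hj
    interval_cases i <;> interval_cases j <;> simp_all, fun i hi => by interval_cases i <;> simpa⟩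

theorem blk3 {a b c : V} (h : a ≠ b) (h' : b ≠ c) (h'' : c ≠ a) (h1 : Pref p m a b) (h2 : Pref p m b c)
    (h3 : Pref p m c a) : Blk p m 3 :=
  ⟨fun i => if i = 0 then a else if i = 1 then b else c, fun i hi j hj e => by
    simp only [Set.mem_Iio] at hi hj
    interval_cases i <;> interval_cases j <;> simp_all, fun i hi => by interval_cases i <;> simpa⟩

theorem idx_map {e : V → W} (he : Injective e) (x : V) (l : List V) : (l.map e).idxOf (e x) = l.idxOf x := by
  induction l with
  | nil => rfl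
  | cons y l ih => simp [List.idxOf_cons, ih, show (e y == e x) = (y == x) from Bool.eq_iff_iff.2 (by simp [he.eq_iff])]

theorem CS.equiv {b : ℕ∞} {q : W → List W} (e : V ≃ W) (h : ∀ v, q (e v) = (p v).map e) (hp : CS b p) : CS b q := by
  obtain ⟨m, h1, h2⟩ := hp
  refine ⟨fun w => (m (e.symm w)).map e, fun a c hc => ?_, fun k k1 k2 ⟨a, ha, hb⟩ => h2 k k1 k2
    ⟨fun i => e.symm (a i), fun i hi j hj e1 => ha hi hj (e.symm.injective e1), fun i hi => ?_⟩⟩
  · obtain ⟨a, rfl⟩ := e.surjective a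
    obtain ⟨c, rfl⟩ := e.surjective c
    simpa [h] using h1 a c (by simpa using hc)
  · have := hb i hi
    beta_reduce
    generalize a ((i + 1) % k) = y at this ⊢
    generalize a i = x at this ⊢
    obtain ⟨x, rfl⟩ := e.surjective x
    obtain ⟨y, rfl⟩ := e.surjective y
    simp only [Pref, h, Equiv.symm_apply_apply] at this ⊢
    refine ⟨by simpa using this.1, fun c hc => ?_⟩
    simpa [idx_map e.injective] using this.2 (e c) (by simp [hc])

theorem acyc (hi : ∀ a, a ∉ p a) (h : ∀ k, 2 ≤ k → ¬ Blk p m k) (b : V) : ¬ Relation.TransGen (Pref p m) b b := by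
  classical
  intro hb
  have e : ∀ {x y}, Relation.TransGen (Pref p m) x y → ∃ k, 1 ≤ k ∧ ∃ w : ℕ → V, w 0 = x ∧ w k = y ∧
      ∀ i < k, Pref p m (w i) (w (i + 1)) := fun {x y} hxy => by
    induction hxy with
    | @single y h => exact ⟨1, le_rfl, fun i => if i = 0 then x else y, rfl, rfl, fun i hi => by
        interval_cases i; simpa⟩
    | @tail y z _ h ih =>
      obtain ⟨k, k1, w, h0, h1, h2⟩ := ih
      refine ⟨k + 1, by omega, update w (k + 1) z, by simpa using h0, by simp, fun i hi => ?_⟩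
      rw [update_of_ne (by omega)]
      by_cases e : i = k
      · subst e; simpa [h1] using h
      · rw [update_of_ne (by omega)]; exact h2 i (by omega)
  have ex : ∃ k, 1 ≤ k ∧ ∃ w : ℕ → V, w 0 = w k ∧ ∀ i < k, Pref p m (w i) (w (i + 1)) :=
    let ⟨k, k1, w, h0, h1, h2⟩ := e hb; ⟨k, k1, w, h0.trans h1.symm, h2⟩
  obtain ⟨k1, w, h0, h1⟩ := Nat.find_spec ex
  have mn := fun j => Nat.find_min ex (m := j)
  generalize Nat.find ex = k at *
  have lt : ∀ i j, i < j → j < k → w i ≠ w j := fun i j ij jk e => mn (j - i) (by omega)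
    ⟨by omega, fun t => w (i + t), by simpa [ij.le] using e, fun t ht => h1 (i + t) (by omega)⟩
  refine h k ?_ ⟨w, fun i hi j hj e => ?_, fun i hi => ?_⟩
  · by_contra h2
    obtain rfl : k = 1 := by omega
    exact hi _ (h0 ▸ (h1 0 (by omega)).1)
  · rcases lt_trichotomy i j with h | h | h
    exacts [(lt i j h hj e).elim, h, (lt j i h hi e.symm).elim]
  · by_cases e : i + 1 = k
    · rw [e, Nat.mod_self, h0, ← e]; exact h1 i hi
    · rw [Nat.mod_eq_of_lt (by omega)]; exact h1 i hi

theorem two_col {α : Type} (g : α → α) (h : ∀ a k, Odd k → g^[k] a ≠ a) : ∃ x : α → Prop, ∀ a, x (g a) ↔ ¬ x a := by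
  let s : Setoid α := ⟨fun a b => ∃ i j, g^[i] a = g^[j] b, fun a => ⟨0, 0, rfl⟩, fun ⟨i, j, e⟩ => ⟨j, i, e.symm⟩,
    fun ⟨i, j, e⟩ ⟨k, l, f⟩ => ⟨k + i, j + l, by
      rw [iterate_add_apply, e, ← iterate_add_apply, add_comm, iterate_add_apply, f, iterate_add_apply]⟩⟩
  have par : ∀ r i j, g^[i] r = g^[j] r → Even (i + j) := fun r i j e => by
    wlog hij : i ≤ j generalizing i j
    · rw [add_comm]; exact this j i e.symm (by omega)
    obtain ⟨d, rfl⟩ := Nat.exists_eq_add_of_le hij
    by_contra hn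
    refine h (g^[i] r) d (by grind) ?_
    rw [← iterate_add_apply, add_comm, ← e]
  refine ⟨fun a => ∃ i j, Even (i + j) ∧ g^[i] a = g^[j] (Quotient.mk s a).out, fun a => ?_⟩
  have e : Quotient.mk s (g a) = Quotient.mk s a := Quotient.sound ⟨0, 1, rfl⟩
  beta_reduce
  rw [e]
  constructor
  · rintro ⟨i, j, h1, h2⟩ ⟨k, l, h3, h4⟩
    have := par (Quotient.mk s a).out (k + j) (i + 1 + l) (by
      rw [iterate_add_apply, ← h2, iterate_add_apply _ (i + 1), ← h4, ← iterate_succ_apply, ← iterate_add_apply,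
        ← iterate_add_apply, add_comm])
    grind
  · intro hn
    obtain ⟨j, i, h1⟩ := Quotient.mk_out (s := s) a
    by_cases h2 : Even (i + j)
    · exact (hn ⟨i, j, h2, h1.symm⟩).elim
    · exact ⟨i, j + 1, by grind, by rw [iterate_succ_apply', h1, ← iterate_succ_apply, iterate_succ_apply']⟩

end Pool.Agent.H.MP_68674a_lc
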