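import Pool.Agent.H.MP_68674a_lc.A

namespace Pool.Agent.H.MP_68674a_lc
open Pool.Agent.Lib.CX Function

variable {V : Type} [DecidableEq V] {p : V → List V}

def fc (p : V → List V) (a : V) : V := (p a).headD a

theorem two_iff {b : ℕ∞} (hb : 2 ≤ b) (h : ∀ a, (p a).Nodup ∧ a ∉ p a ∧ (p a).length ≤ 2 ∧ ∀ c ∈ p a, a ∈ p c) :
    CS b p ↔ ∀ a, p a ≠ [] → ∀ k, Odd k → (fc p)^[k] a ≠ a := by
  have sh : ∀ a, p a = [] ∨ p a = [fc p a] ∨ ∃ c, c ≠ fc p a ∧ p a = [fc p a, c] := fun a => by
    obtain ⟨h1, -, h2, -⟩ := h a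
    unfold fc
    generalize p a = l at h1 h2
    rcases l with _ | ⟨x, _ | ⟨y, _ | ⟨z, l⟩⟩⟩
    · simp
    · simp
    · exact .inr (.inr ⟨y, by simpa [eq_comm] using h1, rfl⟩)
    · simp at h2
  have f1 : ∀ a, p a ≠ [] → fc p a ∈ p a := fun a ha => by
    rcases sh a with e | e | ⟨c, -, e⟩ <;> [exact (ha e).elim; (rw [e]; simp); (rw [e]; simp)]
  have f2 : ∀ a, p a ≠ [] → p (fc p a) ≠ [] := fun a ha => List.ne_nil_of_mem ((h a).2.2.2 _ (f1 a ha))
  have f3 : ∀ a c, c ∈ p a → c ≠ fc p a → p a = [fc p a, c] := fun a c hc hn => by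
    rcases sh a with e | e | ⟨d, -, e⟩ <;> rw [e] at hc <;> simp_all
  have f4 : ∀ a, p a ≠ [] → fc p a ≠ a := fun a ha e => (h a).2.1 (by simpa [e] using f1 a ha)
  constructor
  · rintro ⟨m, h1, h2⟩ a ha k hk e
    have f5 : ∀ j, p ((fc p)^[j] a) ≠ [] := fun j => by
      induction j with
      | zero => exact ha
      | succ j ih => rw [iterate_succ_apply']; exact f2 _ ih
    have f6 : ∀ j, fc p (fc p ((fc p)^[j] a)) ≠ (fc p)^[j] a := fun j e2 => by
      have p1 : IsPeriodicPt (fc p) 2 ((fc p)^[j] a) := e2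
      have p2 : IsPeriodicPt (fc p) k ((fc p)^[j] a) := IsPeriodicPt.apply_iterate e j
      have := p1.gcd p2
      rw [(Nat.coprime_two_left.2 hk : Nat.gcd 2 k = 1)] at this
      exact f4 _ (f5 j) this
    have f7 : ∀ x, p x ≠ [] → fc p (fc p x) ≠ x → (m (fc p x) = some (fc p (fc p x)) ↔ ¬ m x = some (fc p x)) :=
      fun x hx hn => by
        refine ⟨fun e1 e2 => hn (by simpa [e1] using (h1 _ _ e2).1), fun e1 => ?_⟩
        by_contra e2
        have e3 := f3 _ _ ((h x).2.2.2 _ (f1 x hx)) hn.symm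
        refine h2 2 le_rfl hb (blk2 (f4 x hx).symm ⟨f1 x hx, fun c hc => ?_⟩ ⟨by rw [e3]; simp, fun c hc => ?_⟩)
        · have : c ≠ fc p x := fun e => e1 (e ▸ hc)
          rw [f3 x c (h1 _ _ hc).2 this]; simp [this.symm]
        · have := (h1 _ _ hc).2
          rw [e3] at this
          simp only [List.mem_cons, List.not_mem_nil, or_false] at this
          rcases this with rfl | rfl
          · exact (e2 hc).elim
          · exact (e1 (h1 _ _ hc).1).elim
    have f8 : ∀ j, (m ((fc p)^[j] a) = some (fc p ((fc p)^[j] a)) ↔ (m a = some (fc p a) ↔ Even j)) := fun j => by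
      induction j with
      | zero => simp
      | succ j ih => rw [iterate_succ_apply', f7 _ (f5 j) (f6 j), ih, Nat.even_add_one]; tauto
    have := f8 k
    rw [e, ← Nat.not_odd_iff_even] at this
    tauto
  · intro H
    classical
    let g : V ⊕ Bool → V ⊕ Bool := Sum.elim (fun a => if fc p (fc p a) = a then .inr true else .inl (fc p a))
      fun t => .inr !t
    obtain ⟨y, hy⟩ := two_col g fun a k hk e => by
      have g1 : ∀ j t, g^[j] (.inr t) = .inr (if Even j then t else !t) := fun j t => by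
        induction j with
        | zero => simp
        | succ j ih => rw [iterate_succ_apply', ih]; by_cases h : Even j <;> simp [g, h, Nat.even_add_one]
      rcases a with a | t
      · have g2 : ∀ j, g^[j] (.inl a) = .inl ((fc p)^[j] a) ∨ ∃ t, g^[j] (.inl a) = .inr t := fun j => by
          induction j with
          | zero => simp
          | succ j ih =>
            rw [iterate_succ_apply', iterate_succ_apply']
            rcases ih with ih | ⟨t, ih⟩ <;> rw [ih]
            · simp only [g, Sum.elim_inl]; split_ifs <;> simp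
            · simp [g]
        by_cases ha : p a = []
        · obtain ⟨k, rfl⟩ := hk
          rw [iterate_add_apply, iterate_one, show g (.inl a) = .inr true by simp [g, fc, ha], g1] at e
          cases e
        · rcases g2 k with e2 | ⟨t, e2⟩ <;> rw [e] at e2
          · exact H a ha k hk (Sum.inl.inj e2).symm
          · cases e2
      · rw [g1, if_neg (Nat.not_even_iff_odd.2 hk)] at e
        simp at e
    obtain ⟨x, x1, x2⟩ : ∃ x : V → Prop, (∀ a, fc p (fc p a) = a → x a) ∧
        ∀ a, fc p (fc p a) ≠ a → (x (fc p a) ↔ ¬ x a) :=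
      ⟨fun a => y (.inl a) ↔ ¬ y (.inr true), fun a ha => by have := hy (.inl a); simp only [g, Sum.elim_inl, ha] at this; tauto,
        fun a ha => by have := hy (.inl a); simp only [g, Sum.elim_inl, ha] at this; tauto⟩
    let R : V → V → Prop := fun a c => c ∈ p a ∧ ((x a ∧ c = fc p a) ∨ (x c ∧ a = fc p c) ∨
      (¬ x a ∧ ¬ x c ∧ c ≠ fc p a ∧ a ≠ fc p c))
    have R1 : ∀ a c, R a c → R c a := fun a c r => ⟨(h a).2.2.2 _ r.1, by have := r.2; tauto⟩
    have R2 : ∀ a c, R a c → (x a ↔ c = fc p a) := fun a c r => by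
      have := x1 a; have := x2 a; have := x1 c; have := x2 c
      rcases r.2 with r | r | r <;> grind
    have R3 : ∀ a c d, R a c → R a d → c = d := fun a c d r s => by
      by_cases e : x a
      · rw [(R2 _ _ r).1 e, (R2 _ _ s).1 e]
      · have e1 := f3 a c r.1 (mt (R2 _ _ r).2 e)
        rw [f3 a d s.1 (mt (R2 _ _ s).2 e)] at e1
        simpa [eq_comm] using e1
    let m : V → Option V := fun a => if h : ∃ c, R a c then some h.choose else none
    have m1 : ∀ a c, m a = some c ↔ R a c := fun a c => by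
      simp only [m]
      split_ifs with e
      · exact ⟨fun e1 => Option.some.inj e1 ▸ e.choose_spec, fun r => by rw [R3 _ _ _ r e.choose_spec]⟩
      · simpa using fun r => e ⟨c, r⟩
    refine ⟨m, fun a c e => ⟨(m1 _ _).2 (R1 _ _ ((m1 _ _).1 e)), ((m1 _ _).1 e).1⟩, fun k hk _ =>
      no_blk (fun a => if x a then 0 else 1) (fun a c r => ?_) hk⟩
    have ha := List.ne_nil_of_mem r.1
    have e1 : ¬ x a := fun e => by
      have := r.2 _ ((m1 _ _).2 ⟨f1 a ha, .inl ⟨e, rfl⟩⟩)
      rcases sh a with e | e | ⟨d, -, e⟩ <;> rw [e] at this <;> simp at this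
    have e2 : x c := by
      by_contra e2
      refine lt_irrefl _ (r.2 c ((m1 _ _).2 ⟨r.1, .inr (.inr ⟨e1, e2, ?_, ?_⟩)⟩))
      · have := x1 a; have := x2 a; grind
      · have := x1 c; have := x2 c; grind
    simp [e1, e2]

theorem pl_lt {L I} (h : Valid L I) {a c} (hc : c ∈ pl I a) : a < I.length ∧ c < I.length := by
  have : ∀ a, pl I a ≠ [] → a < I.length := fun a ha => by
    by_contra e; exact ha (List.getD_eq_default _ _ (by omega))
  exact ⟨this _ (List.ne_nil_of_mem hc), this _ (List.ne_nil_of_mem ((h a).2.2.2 c hc))⟩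

theorem inP {L : ℕ} (hL : L ≤ 2) {b : ℕ∞} (hb : 2 ≤ b) : InP fun I : {I // Valid L I} => CS b (pl I.1) := by
  have h0 : PT fun q : List (List ℕ) × ℕ × ℕ => (fc (pl q.1))^[min q.2.2 q.1.length] q.2.1 := by
    refine PT.iterate (F := fun q : List (List ℕ) × ℕ × ℕ => fc (pl q.1)) (B := fun q => size q)
      (by unfold fc pl; fun_prop) (by fun_prop) (by fun_prop) (by fun_prop) PB.size' fun q k hk => ?_
    clear hk
    induction k with
    | zero =>
      have := size_pair q.1 q.2
      have := size_pair q.2.1 q.2.2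
      simp only [iterate_zero, id, Prod.mk.eta] at *; omega
    | succ k ih =>
      rw [iterate_succ_apply', fc]
      rcases e : pl q.1 ((fc (pl q.1))^[k] q.2.1) with _ | ⟨x, l⟩
      · exact ih
      · have h1 : x ∈ pl q.1 ((fc (pl q.1))^[k] q.2.1) := by simp [e]
        have h2 : pl q.1 ((fc (pl q.1))^[k] q.2.1) ∈ q.1 := by
          rcases lt_or_ge ((fc (pl q.1))^[k] q.2.1) q.1.length with h | h
          · rw [pl, List.getD_eq_getElem _ _ h]; simp
          · rw [pl, List.getD_eq_default _ _ h] at h1; simp at h1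
        have := size_mem h1
        have := size_mem h2
        have := size_pair q.1 q.2
        simp only [List.headD_cons, Prod.mk.eta] at *; omega
  have h1 : PT fun q : ({I // Valid L I} × ℕ) × ℕ => (fc (pl q.1.1.1))^[min q.2 q.1.1.1.length] q.1.2 :=
    h0.comp (g := fun q : ({I // Valid L I} × ℕ) × ℕ => (q.1.1.1, q.1.2, q.2)) (by fun_prop)
  refine InP.of_iff (B := fun I : {I // Valid L I} => ∀ a < I.1.length, pl I.1 a ≠ [] → ∀ k < I.1.length + 1, Odd k →
    (fc (pl I.1))^[min k I.1.length] a ≠ a) (InP.of_decide (by unfold pl at *; fun_prop)) fun I => ?_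
  rw [two_iff hb fun a => ⟨(I.2 a).1, (I.2 a).2.1, (I.2 a).2.2.1.trans hL, (I.2 a).2.2.2⟩]
  refine ⟨fun h a _ ha k hk ho => by rw [min_eq_left (by omega)]; exact h a ha k ho, fun h a ha k ho e => ?_⟩
  have a1 : a < I.1.length := (pl_lt I.2 (List.head_mem ha)).1
  have f : ∀ j, (fc (pl I.1))^[j] a < I.1.length := fun j => by
    induction j with
    | zero => exact a1
    | succ j ih =>
      rw [iterate_succ_apply', fc]
      rcases e : pl I.1 ((fc (pl I.1))^[j] a) with _ | ⟨x, l⟩
      · exact ih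
      · exact (pl_lt I.2 (a := (fc (pl I.1))^[j] a) (by simp [e])).2
  have l : minimalPeriod (fc (pl I.1)) a ≤ I.1.length := by
    simpa using Finset.card_le_card_of_injOn (s := Finset.range _) (t := Finset.range I.1.length) _
      (fun j _ => by simpa using f j) (by simpa using iterate_injOn_Iio_minimalPeriod (f := fc (pl I.1)) (x := a))
  refine h a a1 ha _ (Nat.lt_succ_of_le l) (ho.of_dvd_nat (IsPeriodicPt.minimalPeriod_dvd e)) ?_
  rw [min_eq_left l]; exact isPeriodicPt_minimalPeriod _ _

end Pool.Agent.H.MP_68674a_lc
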