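import Pool.Agent.H.MP_68674a_lc.B

namespace Pool.Agent.H.MP_68674a_lc
open Pool.Agent.Lib.CX Function

theorem pref_of {V : Type} [DecidableEq V] {p : V → List V} {m : V → Option V} {a b : V} {u w : List V}
    (e : p a = u ++ b :: w) (h : ∀ c ∈ b :: u, m a ≠ some c) : Pref p m a b := by
  refine ⟨by simp [e], fun c hc => ?_⟩
  have h2 : c ∉ u := fun h2 => h c (by simp [h2]) hc
  have h3 : b ≠ c := fun h2 => h c (by simp [h2]) hc
  rw [e, List.idxOf_append_of_notMem h2, List.idxOf_cons_ne _ h3, List.idxOf_append]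
  split_ifs with h4
  · have := List.idxOf_lt_length_of_mem h4; omega
  · simp

theorem pref_mem {V : Type} [DecidableEq V] {p : V → List V} {m : V → Option V} {a b c : V} (u : List V) {w : List V}
    (h : Pref p m a b) (e : p a = u ++ c :: w) (hc : m a = some c) : b ∈ u := by
  by_contra hb
  have := h.2 c hc
  rw [e, List.idxOf_append_of_notMem hb, List.idxOf_append] at this
  split_ifs at this with h4
  · have := List.idxOf_lt_length_of_mem h4; omega
  · simp at this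

abbrev T := ℕ × ℕ × ℕ
def nx (s : ℕ) : ℕ := if s % 3 = 2 then s - 2 else s + 1
def pv (s : ℕ) : ℕ := if s % 3 = 0 then s + 2 else s - 1
def sc (N s : ℕ) : ℕ := if s + 1 = N then 0 else s + 1
def pd (N s : ℕ) : ℕ := if s = 0 then N - 1 else s - 1

def gp (N : ℕ) (l : ℕ × Bool) (v : T) : List T :=
  if v.2.2 < N ∧ v.2.1 < N then
    if v.1 = 4 then [(5, v.2)] ++ (if l = (v.2.1, true) then [(2, 0, v.2.2)] else []) ++ [(5, v.2.1, pd N v.2.2)]
    else if v.1 = 5 then [(4, v.2.1, sc N v.2.2)] ++ (if l = (v.2.1, false) then [(2, 0, v.2.2)] else []) ++ [(4, v.2)]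
    else if v.2.1 ≠ 0 then []
    else if v.1 = 0 then [(0, 0, nx v.2.2), (1, v.2), (0, 0, pv v.2.2)]
    else if v.1 = 1 then [(2, 0, pv v.2.2), (0, v.2), (3, v.2)]
    else if v.1 = 2 then [(3, v.2), (if l.2 then 4 else 5, l.1, v.2.2), (1, 0, nx v.2.2)]
    else if v.1 = 3 then [(1, v.2), (2, v.2)] else []
  else []

variable {M : ℕ} {l : ℕ → ℕ × Bool}

abbrev G (M : ℕ) (l : ℕ → ℕ × Bool) (v : T) : List T := gp (3 * M) (l v.2.2) v

theorem ar {s : ℕ} (h : s < 3 * M) : nx s < 3 * M ∧ pv s < 3 * M ∧ nx (pv s) = s ∧ pv (nx s) = s ∧ nx (nx s) = pv s ∧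
    nx s ≠ s ∧ pv s ≠ s ∧ nx s ≠ pv s ∧ nx s / 3 = s / 3 ∧ pv s / 3 = s / 3 ∧ pv (pv s) = nx s := by
  unfold nx pv; split_ifs <;> omega
theorem ar' {N s : ℕ} (h : s < N) (hN : 2 ≤ N) : sc N s < N ∧ pd N s < N ∧ sc N (pd N s) = s ∧ pd N (sc N s) = s ∧
    sc N s ≠ s ∧ pd N s ≠ s := by
  unfold sc pd; grind

theorem g0 {s} (h : s < 3 * M) : G M l (0, 0, s) = [(0, 0, nx s), (1, 0, s), (0, 0, pv s)] := by
  simp [G, gp, h, Nat.zero_lt_of_lt h]
theorem g1 {s} (h : s < 3 * M) : G M l (1, 0, s) = [(2, 0, pv s), (0, 0, s), (3, 0, s)] := by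
  simp [G, gp, h, Nat.zero_lt_of_lt h]
theorem g2 {s} (h : s < 3 * M) :
    G M l (2, 0, s) = [(3, 0, s), (if (l s).2 then 4 else 5, (l s).1, s), (1, 0, nx s)] := by
  simp [G, gp, h, Nat.zero_lt_of_lt h]
theorem g3 {s} (h : s < 3 * M) : G M l (3, 0, s) = [(1, 0, s), (2, 0, s)] := by
  simp [G, gp, h, Nat.zero_lt_of_lt h]
theorem g4 {x s} (h : s < 3 * M) (hx : x < 3 * M) : G M l (4, x, s) =
    [(5, x, s)] ++ (if l s = (x, true) then [(2, 0, s)] else []) ++ [(5, x, pd (3 * M) s)] := by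
  simp [G, gp, h, hx]
theorem g5 {x s} (h : s < 3 * M) (hx : x < 3 * M) : G M l (5, x, s) =
    [(4, x, sc (3 * M) s)] ++ (if l s = (x, false) then [(2, 0, s)] else []) ++ [(4, x, s)] := by
  simp [G, gp, h, hx]

theorem gcases {P : T → Prop} (h0 : ∀ v, G M l v = [] → P v) (h1 : ∀ s < 3 * M, P (0, 0, s) ∧ P (1, 0, s) ∧
    P (2, 0, s) ∧ P (3, 0, s) ∧ ∀ x < 3 * M, P (4, x, s) ∧ P (5, x, s)) (v : T) : P v := by
  obtain ⟨t, x, s⟩ := v
  by_cases h : G M l (t, x, s) = []
  · exact h0 _ h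
  simp only [G, gp] at h
  split_ifs at h <;> simp_all

theorem gvalid (hl : ∀ s < 3 * M, (l s).1 < 3 * M) (v : T) :
    (G M l v).Nodup ∧ v ∉ G M l v ∧ (G M l v).length ≤ 3 ∧ ∀ c ∈ G M l v, v ∈ G M l c := by
  refine gcases (M := M) (l := l) (P := fun v => (G M l v).Nodup ∧ v ∉ G M l v ∧ (G M l v).length ≤ 3 ∧
    ∀ c ∈ G M l v, v ∈ G M l c) (fun v h => by simp [h]) (fun s h => ?_) v
  obtain ⟨a1, a2, a3, a4, a5, a6, a7, a8, -⟩ := ar h
  obtain ⟨b1, b2, b3, b4, b5, b6⟩ := ar' h (by omega)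
  refine ⟨?_, ?_, ?_, ?_, fun x hx => ⟨?_, ?_⟩⟩
  · simp [g0, g1, *, a6.symm, a7.symm]
  · simp [g0, g1, g2, g3, *]
  · rcases e : l s with ⟨x, _ | _⟩ <;> have := hl s h <;> simp_all [g1, g2, g3, g4, g5]
  · simp [g1, g2, g3, *]
  · by_cases e : l s = (x, true) <;> simp [g2, g4, g5, *, b6.symm]
  · by_cases e : l s = (x, false) <;> simp [g2, g4, g5, *]

theorem sound (hl : ∀ s < 3 * M, (l s).1 < 3 * M) (h : CS 3 (G M l)) :
    ∃ v : ℕ → Bool, ∀ j < M, ∃ s < 3 * M, s / 3 = j ∧ v (l s).1 = (l s).2 := by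
  obtain ⟨m, h1, h2⟩ := h
  have st : ∀ {a b} (u u' : List T) {w w'}, G M l a = u ++ b :: w → G M l b = u' ++ a :: w' →
      (∃ c ∈ b :: u, m a = some c) ∨ ∃ c ∈ a :: u', m b = some c := fun {a b} u u' w w' e e' => by
    by_contra hn
    push Not at hn
    exact h2 2 le_rfl (by norm_num) (blk2 (fun e1 => (gvalid hl a).2.1 (by rw [e]; simp [e1]))
      (pref_of e hn.1) (pref_of e' hn.2))
  have sy : ∀ a c, m a = some c → m c = some a := fun a c e => (h1 a c e).1
  have nz : ∀ s < 3 * M, m (2, 0, s) ≠ some (if (l s).2 then 4 else 5, (l s).1, s) := fun s h e => by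
    obtain ⟨a1, a2, a3, a4, a5, a6, a7, a8, -⟩ := ar h
    have e5 := st [] [_] (g2 h) (g3 h)
    have e2 := st [_] [_] (g0 h) (g1 h)
    have e3 := st [_] [_] (g0 a1) (g1 a1)
    simp only [List.mem_cons, List.not_mem_nil, or_false, exists_eq_or_imp, exists_eq_left, a4, a5] at e5 e2 e3
    have := sy (3, 0, s)
    have := sy (0, 0, s)
    have := sy (1, 0, s)
    have := sy (0, 0, nx s)
    have := sy (1, 0, nx s)
    grind
  have n4 : ∀ s < 3 * M, ∀ x < 3 * M, m (4, x, s) ≠ some (2, 0, s) ∧ m (5, x, s) ≠ some (2, 0, s) :=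
    fun s h x hx => by
    have := h1 (2, 0, s) (4, x, s)
    have := h1 (2, 0, s) (5, x, s)
    have := nz s h
    simp only [g2 h] at *
    grind
  have pr : ∀ s < 3 * M, ∀ x < 3 * M, m (4, x, s) = some (5, x, s) →
      m (4, x, sc (3 * M) s) = some (5, x, sc (3 * M) s) := fun s h x hx e => by
    obtain ⟨b1, b2, b3, b4, b5, b6⟩ := ar' h (by omega)
    have e8 := st [] _ (g5 h hx) (b4 ▸ g4 b1 hx)
    have := n4 _ b1 x hx
    have := sy _ _ e
    have := sy (4, x, sc (3 * M) s) (5, x, s)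
    by_cases c2 : l (sc (3 * M) s) = (x, true) <;> simp [c2] at e8 <;> grind
  have pr2 : ∀ x < 3 * M, ∀ s d, s + d < 3 * M → m (4, x, s) = some (5, x, s) →
      m (4, x, s + d) = some (5, x, s + d) := fun x hx s d => by
    induction d with
    | zero => simp
    | succ d ih =>
      intro h e
      have := pr (s + d) (by omega) x hx (ih (by omega) e)
      rwa [sc, if_neg (by omega)] at this
  refine ⟨fun x => decide (m (4, x, 0) = some (5, x, 0)), fun j hj => ?_⟩
  obtain ⟨s, h, hs, e⟩ : ∃ s < 3 * M, s / 3 = j ∧ m (2, 0, s) ≠ some (3, 0, s) := by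
    by_contra hn
    push Not at hn
    have k : ∀ s < 3 * M, s / 3 = j → Pref (G M l) m (0, 0, s) (0, 0, nx s) := fun s h hs => by
      obtain ⟨a1, a2, a3, a4, a5, a6, a7, a8, a9, a10, -⟩ := ar h
      have e4 := st [] [_, _] (g3 h) (g1 h)
      have := sy _ _ (hn s h hs)
      have := hn _ a2 (a10.trans hs)
      have : m (0, 0, s) = some (1, 0, s) := by
        simp at e4
        grind
      exact pref_of (u := []) (g0 h) (by simp [this])
    have h : 3 * j < 3 * M := by omega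
    obtain ⟨a1, a2, a3, a4, a5, a6, a7, a8, a9, a10, -⟩ := ar h
    refine h2 3 (by omega) le_rfl (blk3 (by simp [a6.symm]) (by simp [a8]) (by simp [a7]) (k _ h (by omega))
      (a5 ▸ k _ a1 (by omega)) (by simpa [a3] using k _ a2 (by omega)))
  refine ⟨s, h, hs, ?_⟩
  have := nz s h
  have hx := hl s h
  have := n4 s h _ hx
  obtain ⟨b1, b2, b3, b4, b5, b6⟩ := ar' h (by omega)
  have g := g2 (l := l) h
  have g' := g4 (l := l) h hx
  have g'' := g5 (l := l) h hx
  rcases e1 : l s with ⟨x, _ | _⟩ <;> simp only [e1, if_true] at *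
  · have e6 := st [_] [_] g g''
    have e7 := pr2 x hx 0 s (by omega)
    have := sy (4, x, s) (5, x, s)
    simp at e6 e7 ⊢
    grind
  · have e6 := st [_] [_] g g'
    simp at e6
    have := pr _ (by omega) x hx (pr2 x hx s (3 * M - 1 - s) (by omega) (by grind))
    rw [sc, if_pos (by omega)] at this
    simpa

open Classical in
theorem complete (hl : ∀ s < 3 * M, (l s).1 < 3 * M) (v : ℕ → Bool) (b : ℕ∞)
    (h : ∀ j < M, ∃ s < 3 * M, s / 3 = j ∧ v (l s).1 = (l s).2) : CS b (G M l) := by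
  choose! σ σ1 σ2 σ3 using h
  let m : T → Option T := fun a => if G M l a = [] then none else some
    (if a.1 = 4 then (5, a.2.1, if v a.2.1 then a.2.2 else pd (3 * M) a.2.2)
    else if a.1 = 5 then (4, a.2.1, if v a.2.1 then a.2.2 else sc (3 * M) a.2.2)
    else if a.1 = 0 then (if a.2.2 = σ (a.2.2 / 3) then (0, 0, nx a.2.2)
      else if pv a.2.2 = σ (a.2.2 / 3) then (0, 0, pv a.2.2) else (1, a.2))
    else if a.1 = 1 then (if a.2.2 = σ (a.2.2 / 3) then (3, a.2)
      else if pv a.2.2 = σ (a.2.2 / 3) then (2, 0, pv a.2.2) else (0, a.2))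
    else if a.1 = 2 then (if a.2.2 = σ (a.2.2 / 3) then (1, 0, nx a.2.2) else (3, a.2))
    else if a.2.2 = σ (a.2.2 / 3) then (1, a.2) else (2, a.2))
  let r : T → ℕ := fun a =>
    if a.1 = 4 then (if v a.2.1 then 0 else 1) else if a.1 = 5 then (if v a.2.1 then 1 else 0)
    else if a.1 = 0 then (if a.2.2 = σ (a.2.2 / 3) then 0 else if pv a.2.2 = σ (a.2.2 / 3) then 2 else 1)
    else if a.1 = 1 then (if pv a.2.2 = σ (a.2.2 / 3) then 0 else 1)
    else if a.1 = 2 then (if a.2.2 = σ (a.2.2 / 3) then 1 else 0)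
    else if a.2.2 = σ (a.2.2 / 3) then 0 else 2
  have key : ∀ a, (∀ c, m a = some c → m c = some a ∧ c ∈ G M l a) ∧ ∀ c, Pref (G M l) m a c → r c < r a := by
    refine gcases (M := M) (l := l) (fun a h => ⟨by simp [m, h], fun c hc => by simpa [h] using hc.1⟩) fun s h => ?_
    obtain ⟨a1, a2, a3, a4, a5, a6, a7, a8, a9, a10, a11⟩ := ar h
    obtain ⟨b1, b2, b3, b4, b5, b6⟩ := ar' h (by omega)
    have c1 : s = σ (s / 3) ∧ σ (s / 3) = s ∨ pv s = σ (s / 3) ∧ σ (s / 3) = pv s ∨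
        nx s = σ (s / 3) ∧ σ (s / 3) = nx s := by
      have := σ2 (s / 3) (by omega)
      unfold pv nx; split_ifs <;> omega
    have c2 := σ3 (s / 3) (by omega)
    refine ⟨⟨?_, fun c hc => ?_⟩, ⟨?_, fun c hc => ?_⟩, ⟨?_, fun c hc => ?_⟩, ⟨?_, fun c hc => ?_⟩,
      fun x hx => ⟨⟨?_, fun c hc => ?_⟩, ?_, fun c hc => ?_⟩⟩
    · rcases c1 with ⟨-, c⟩ | ⟨-, c⟩ | ⟨-, c⟩ <;> simp [m, g0, g1, *, a6.symm, a7.symm, a8.symm]
    · rcases c1 with ⟨-, e⟩ | ⟨-, e⟩ | ⟨-, e⟩
      · simpa using pref_mem [] hc (g0 h) (by simp [m, g0, *])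
      · have := pref_mem [_, _] hc (g0 h) (by simp [m, g0, *, a7.symm])
        simp at this; rcases this with rfl | rfl <;> simp [r, *, a7.symm]
      · have := pref_mem [_] hc (g0 h) (by simp [m, g0, *, a6.symm, a8.symm])
        simp at this; subst this; simp [r, *, a6.symm, a8.symm]
    · rcases c1 with ⟨-, c⟩ | ⟨-, c⟩ | ⟨-, c⟩ <;> simp [m, g0, g1, g2, g3, *, a6.symm, a7.symm, a8.symm]
    · rcases c1 with ⟨-, e⟩ | ⟨-, e⟩ | ⟨-, e⟩
      · have := pref_mem [_, _] hc (g1 h) (by simp [m, g1, *])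
        simp at this; rcases this with rfl | rfl <;> simp [r, *]
      · simpa using pref_mem [] hc (g1 h) (by simp [m, g1, *, a7.symm])
      · have := pref_mem [_] hc (g1 h) (by simp [m, g1, *, a6.symm, a8.symm])
        simp at this; subst this; simp [r, *, a8.symm]
    · rcases c1 with ⟨-, c⟩ | ⟨-, c⟩ | ⟨-, c⟩ <;> simp [m, g1, g2, g3, *, a6.symm, a7.symm]
    · by_cases e : σ (s / 3) = s
      · have := pref_mem [_, _] hc (g2 h) (by simp [m, g2, *])
        rw [e] at c2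
        simp at this; rcases this with rfl | rfl
        · simp [r, e]
        · cases e1 : (l s).2 <;> simp [r, e, c2, e1]
      · simpa using pref_mem [] hc (g2 h) (by simp [m, g2, h, Ne.symm e])
    · rcases c1 with ⟨-, c⟩ | ⟨-, c⟩ | ⟨-, c⟩ <;> simp [m, g1, g2, g3, *, a6.symm, a7.symm]
    · by_cases e : σ (s / 3) = s
      · simpa using pref_mem [] hc (g3 h) (by simp [m, g3, *])
      · have := pref_mem [_] hc (g3 h) (by simp [m, g3, h, Ne.symm e])
        simp at this; subst this; simp [r, Ne.symm e]; split_ifs <;> simp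
    · cases e : v x <;> simp [m, g4, g5, *]
    · cases e : v x
      · have := pref_mem _ hc (g4 h hx) (by simp [m, g4, *])
        simp at this; rcases this with rfl | ⟨e1, rfl⟩
        · simp [r, e]
        · have : s ≠ σ (s / 3) := fun e2 => by rw [← e2, e1, e] at c2; cases c2
          simp [r, e, this]
      · simpa using pref_mem [] hc (g4 h hx) (by simp [m, g4, *])
    · cases e : v x <;> simp [m, g4, g5, *]
    · cases e : v x
      · simpa using pref_mem [] hc (g5 h hx) (by simp [m, g5, *])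
      · have := pref_mem _ hc (g5 h hx) (by simp [m, g5, *])
        simp at this; rcases this with rfl | ⟨e1, rfl⟩
        · simp [r, e]
        · have : s ≠ σ (s / 3) := fun e2 => by rw [← e2, e1, e] at c2; cases c2
          simp [r, e, this]
  exact ⟨m, fun a => (key a).1, fun k hk _ => no_blk r (fun a => (key a).2) hk⟩

end Pool.Agent.H.MP_68674a_lc
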