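import Pool.Agent.Lib.lead.CXDefs

namespace Pool.Agent.H.MP_68674a_lc

variable {V : Type} [DecidableEq V]

/-- `m` is a matching for the preference lists `p` -/
def IsM (p : V → List V) (m : V → Option V) : Prop := ∀ a c, m a = some c → m c = some a ∧ c ∈ p a

/-- `a` finds `b` acceptable and is unassigned or prefers `b` to its partner -/
def Pref (p : V → List V) (m : V → Option V) (a b : V) : Prop :=
  b ∈ p a ∧ ∀ c, m a = some c → (p a).idxOf b < (p a).idxOf c

/-- there is a blocking cycle of `k` distinct agents -/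
def Blk (p : V → List V) (m : V → Option V) (k : ℕ) : Prop :=
  ∃ a : ℕ → V, Set.InjOn a (Set.Iio k) ∧ ∀ i < k, Pref p m (a i) (a ((i + 1) % k))

/-- there is a matching without blocking cycles of length between `2` and `b` -/
def CS (b : ℕ∞) (p : V → List V) : Prop := ∃ m, IsM p m ∧ ∀ k : ℕ, 2 ≤ k → (k : ℕ∞) ≤ b → ¬ Blk p m k

/-- the preference list of agent `a` -/
def pl (I : List (List ℕ)) (a : ℕ) : List ℕ := I.getD a []

/-- strict lists of other agents, of length at most `L`, with mutual acceptability -/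
def Valid (L : ℕ) (I : List (List ℕ)) : Prop :=
  ∀ a, (pl I a).Nodup ∧ a ∉ pl I a ∧ (pl I a).length ≤ L ∧ ∀ b ∈ pl I a, a ∈ pl I b

end Pool.Agent.H.MP_68674a_lc
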